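import Mathlib

set_option autoImplicit false

open Set Filter Topology

namespace Pool.Agent.Results.MP_d100af_an.SinglePartner

/-- A Cantor set in `ℝ`: a nonempty compact, totally disconnected subset of `ℝ` with no isolated
points (every point of `K` is an accumulation point of `K`). -/
def IsCantorSet (K : Set ℝ) : Prop :=
  K.Nonempty ∧ IsCompact K ∧ IsTotallyDisconnected K ∧ ∀ x ∈ K, AccPt x (𝓟 K)

/-- The Euclidean distance of two points of the plane. -/
noncomputable def euclid (p q : ℝ × ℝ) : ℝ := √((p.1 - q.1) ^ 2 + (p.2 - q.2) ^ 2)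

/-- The tree distance set `Δ^T(X)`: all families of distances `|y a - y b|`, indexed by the edges
`{a, b}` of `T`, where `y` ranges over the injective maps from the vertices of `T` to `X`. -/
def treeDistanceSet {V : Type} (T : SimpleGraph V) (X : Set (ℝ × ℝ)) : Set (T.edgeSet → ℝ) :=
  {t | ∃ y : V → ℝ × ℝ, Function.Injective y ∧ (∀ v, y v ∈ X) ∧
    ∀ (a b : V) (h : T.Adj a b), t ⟨s(a, b), h⟩ = euclid (y a) (y b)}

/-! ### Trees -/

lemma parent_unique {V : Type} {T : SimpleGraph V} (hT : T.IsTree) {r u w v : V}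
    (hu : T.Adj u v) (hw : T.Adj w v) (du : T.dist r v = T.dist r u + 1)
    (dw : T.dist r v = T.dist r w + 1) : u = w := by
  classical
  obtain ⟨q, hq, hql⟩ := (hT.connected r v).exists_path_of_dist
  have aux : ∀ x : V, T.Adj x v → T.dist r v = T.dist r x + 1 → x = q.penultimate := by
    intro x hx dx
    obtain ⟨p, hp, hpl⟩ := (hT.connected r x).exists_path_of_dist
    have hxq : x ∈ q.support := by
      by_contra hxq
      have hv := hT.isAcyclic.mem_support_of_ne_mem_support_of_adj_of_isPath hp hq hx hxq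
      have h1 := SimpleGraph.dist_le (p.takeUntil v hv)
      have h2 := p.length_takeUntil_le_length hv
      omega
    exact hT.isAcyclic.eq_penultimate_of_adj_end hq hx.symm hxq
  rw [aux u hu du, aux w hw dw]

lemma dist_lt_card {V : Type} [Fintype V] {T : SimpleGraph V} (hT : T.IsTree) (r v : V) :
    T.dist r v < Fintype.card V := by
  obtain ⟨q, hq, hql⟩ := (hT.connected r v).exists_path_of_dist
  rw [← hql]
  exact hq.length_lt

lemma exists_assignment {V : Type} [Fintype V] {T : SimpleGraph V} (hT : T.IsTree) (r : V) {Y : Type}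
    (S : V → Set Y) (R : V → V → Y → Y → Prop) (h0 : ∀ v, (S v).Nonempty)
    (hstep : ∀ u v, T.Adj u v → T.dist r v = T.dist r u + 1 → ∀ a ∈ S u, ∃ b ∈ S v, R u v a b) :
    ∃ y : V → Y, (∀ v, y v ∈ S v) ∧
      ∀ u v, T.Adj u v → T.dist r v = T.dist r u + 1 → R u v (y u) (y v) := by
  classical
  -- induction on the distance from the root
  have key : ∀ k : ℕ, ∃ y : V → Y, (∀ v, y v ∈ S v) ∧
      ∀ u v, T.Adj u v → T.dist r v = T.dist r u + 1 → T.dist r v ≤ k → R u v (y u) (y v) := by
    intro k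
    induction k with
    | zero =>
      choose y hy using h0
      exact ⟨y, hy, fun u v _ h1 h2 => by omega⟩
    | succ k ih =>
      obtain ⟨y, hy, hR⟩ := ih
      have hex : ∀ v, ∃ b ∈ S v, ∀ u, T.Adj u v → T.dist r v = T.dist r u + 1 → R u v (y u) b := by
        intro v
        by_cases hv : ∃ u, T.Adj u v ∧ T.dist r v = T.dist r u + 1
        · obtain ⟨u, hu, hd⟩ := hv
          obtain ⟨b, hb, hRb⟩ := hstep u v hu hd (y u) (hy u)
          refine ⟨b, hb, fun w hw hwd => ?_⟩
          rw [← parent_unique hT hu hw hd hwd]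
          exact hRb
        · obtain ⟨b, hb⟩ := h0 v
          exact ⟨b, hb, fun u hu hd => absurd ⟨u, hu, hd⟩ hv⟩
      choose z hz hzR using hex
      refine ⟨fun v => if T.dist r v ≤ k then y v else z v, ?_, ?_⟩
      · intro v
        dsimp only
        split_ifs
        · exact hy v
        · exact hz v
      · intro u v huv hd hk
        have hu : T.dist r u ≤ k := by omega
        dsimp only
        rw [if_pos hu]
        split_ifs with hv
        · exact hR u v huv hd hv
        · exact hzR v u huv hd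
  obtain ⟨y, hy, hR⟩ := key (Fintype.card V)
  exact ⟨y, hy, fun u v huv hd => hR u v huv hd (dist_lt_card hT r v).le⟩

/-! ### Avoiding small intervals -/

lemma avoid {X : Type} [TopologicalSpace X] {P : Set X} (hP : IsCompact P)
    {Ψ : X × (ℕ → Bool) → ℝ} (hΨ : Continuous Ψ)
    (hinj : ∀ p ∈ P, Function.Injective fun s => Ψ (p, s)) (q : ℕ → ℝ) :
    ∃ ε : ℕ → ℝ, (∀ k, 0 < ε k) ∧ ∀ p ∈ P, ∃ s, ∀ k, ε k ≤ |Ψ (p, s) - q k| := by
  classical
  -- separation of the two halves at level `k`
  have hsep : ∀ k : ℕ, ∃ e : ℝ, 0 < e ∧ ∀ p ∈ P, ∀ s s' : ℕ → Bool, (∀ i < k, s i = s' i) →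
      s k = false → s' k = true → 2 * e ≤ |Ψ (p, s) - Ψ (p, s')| := by
    intro k
    let C : Set (X × ((ℕ → Bool) × (ℕ → Bool))) := P ×ˢ
      {ss | (∀ i < k, ss.1 i = ss.2 i) ∧ ss.1 k = false ∧ ss.2 k = true}
    have hCc : IsCompact C := by
      apply hP.prod
      apply IsClosed.isCompact
      have e1 : {ss : (ℕ → Bool) × (ℕ → Bool) | (∀ i < k, ss.1 i = ss.2 i) ∧ ss.1 k = false ∧
          ss.2 k = true} = (⋂ i, ⋂ (_ : i < k), {ss | ss.1 i = ss.2 i}) ∩
          ({ss | ss.1 k = false} ∩ {ss | ss.2 k = true}) := by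
        ext ss; simp
      rw [e1]
      refine IsClosed.inter (isClosed_iInter fun i => isClosed_iInter fun _ => ?_)
        (IsClosed.inter ?_ ?_)
      · exact isClosed_eq ((continuous_apply i).comp continuous_fst)
          ((continuous_apply i).comp continuous_snd)
      · exact isClosed_eq ((continuous_apply k).comp continuous_fst) continuous_const
      · exact isClosed_eq ((continuous_apply k).comp continuous_snd) continuous_const
    have hf : Continuous (fun x : X × ((ℕ → Bool) × (ℕ → Bool)) =>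
        |Ψ (x.1, x.2.1) - Ψ (x.1, x.2.2)|) := by fun_prop
    rcases C.eq_empty_or_nonempty with hC | hC
    · refine ⟨1, one_pos, ?_⟩
      intro p hp s s' h1 h2 h3
      have : (p, (s, s')) ∈ C := ⟨hp, h1, h2, h3⟩
      rw [hC] at this
      exact absurd this (Set.notMem_empty _)
    · obtain ⟨⟨p₀, s₀, s₀'⟩, hm, hmin⟩ := hCc.exists_isMinOn hC hf.continuousOn
      have hne : Ψ (p₀, s₀) ≠ Ψ (p₀, s₀') := by
        intro h
        have h1 := hinj p₀ hm.1 h
        have h2 := hm.2.2.1
        have h3 := hm.2.2.2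
        simp only at h2 h3
        rw [h1, h3] at h2
        exact absurd h2 (by simp)
      refine ⟨|Ψ (p₀, s₀) - Ψ (p₀, s₀')| / 2, by
        have := abs_pos.mpr (sub_ne_zero.mpr hne)
        linarith, ?_⟩
      intro p hp s s' h1 h2 h3
      have h4 := hmin (show (p, (s, s')) ∈ C from ⟨hp, h1, h2, h3⟩)
      simp only [mem_ofPred_eq] at h4
      linarith
  choose ε hε hsep using hsep
  refine ⟨ε, hε, ?_⟩
  intro p hp
  -- one of the two continuations of a prefix stays away from `q k`
  have hcont : ∀ (k : ℕ) (t : ℕ → Bool), ∃ b : Bool, ∀ σ : ℕ → Bool, (∀ i < k, σ i = t i) →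
      σ k = b → ε k ≤ |Ψ (p, σ) - q k| := by
    intro k t
    by_contra hcon
    push Not at hcon
    obtain ⟨σ, h1, h2, h3⟩ := hcon false
    obtain ⟨σ', h1', h2', h3'⟩ := hcon true
    have h4 := hsep k p hp σ σ' (fun i hi => by rw [h1 i hi, h1' i hi]) h2 h2'
    have h5 : |Ψ (p, σ) - Ψ (p, σ')| ≤ |Ψ (p, σ) - q k| + |Ψ (p, σ') - q k| := by
      rw [abs_sub_comm (Ψ (p, σ')) (q k)]
      exact abs_sub_le _ _ _
    linarith
  choose b hb using hcont
  -- build the sequence
  let T : ℕ → (ℕ → Bool) := fun k => Nat.rec (fun _ => false)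
    (fun k t => Function.update t k (b k t)) k
  have hT : ∀ k, T (k + 1) = Function.update (T k) k (b k (T k)) := fun k => rfl
  let s : ℕ → Bool := fun k => T (k + 1) k
  have hs : ∀ k, ∀ i < k, T k i = s i := by
    intro k
    induction k with
    | zero => intro i hi; omega
    | succ k ih =>
      intro i hi
      rcases Nat.lt_succ_iff_lt_or_eq.mp hi with h | h
      · rw [hT, Function.update_of_ne (by omega)]
        exact ih i h
      · subst h; rfl
  refine ⟨s, fun k => hb k (T k) s (fun i hi => (hs k i hi).symm) ?_⟩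
  show T (k + 1) k = b k (T k)
  rw [hT, Function.update_self]

/-! ### Topology of the line -/

/-- A union of closed sets shrinking towards a closed set, together with it, is closed. -/
lemma isClosed_union_shrinking {C : Set ℝ} (hC : IsClosed C) {A : ℕ → Set ℝ}
    (hA : ∀ n, IsClosed (A n)) {r : ℝ} (hr : 0 ≤ r)
    (hAC : ∀ n, A n ⊆ Metric.cthickening (r / (n + 1)) C) : IsClosed (C ∪ ⋃ n, A n) := by
  have h1 : C ∪ ⋃ n, A n = ⋂ N : ℕ, ((⋃ n ∈ Set.Iio N, A n) ∪ Metric.cthickening (r / (N + 1)) C) := by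
    apply Set.Subset.antisymm
    · apply Set.subset_iInter
      intro N
      apply Set.union_subset
      · exact (Metric.self_subset_cthickening C).trans Set.subset_union_right
      · apply Set.iUnion_subset
        intro n
        by_cases hn : n < N
        · exact (Set.subset_biUnion_of_mem (u := fun n => A n) (show n ∈ Set.Iio N from hn)).trans
            Set.subset_union_left
        · refine ((hAC n).trans (Metric.cthickening_mono ?_ C)).trans Set.subset_union_right
          have : (N : ℝ) ≤ n := by exact_mod_cast not_lt.mp hn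
          gcongr
    · intro x hx
      by_contra hxn
      rw [Set.mem_union, not_or] at hxn
      rw [Set.mem_iInter] at hx
      have h2 : ∀ N : ℕ, x ∈ Metric.cthickening (r / (N + 1)) C := by
        intro N
        rcases hx N with h | h
        · exfalso
          rw [Set.mem_iUnion₂] at h
          obtain ⟨n, _, hn⟩ := h
          exact hxn.2 (Set.mem_iUnion.mpr ⟨n, hn⟩)
        · exact h
      have h3 : Metric.infEDist x C ≤ 0 := by
        have h4 : Tendsto (fun N : ℕ => ENNReal.ofReal (r / (N + 1))) atTop (𝓝 (ENNReal.ofReal 0)) := by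
          apply ENNReal.tendsto_ofReal
          have := tendsto_one_div_add_atTop_nhds_zero_nat (𝕜 := ℝ)
          have h5 := this.const_mul r
          simpa [div_eq_mul_inv] using h5
        rw [ENNReal.ofReal_zero] at h4
        exact ge_of_tendsto' h4 (fun N => h2 N)
      apply hxn.1
      rw [← hC.closure_eq]
      rw [Metric.mem_closure_iff_infEDist_zero]
      exact le_antisymm h3 bot_le
  rw [h1]
  apply isClosed_iInter
  intro N
  apply IsClosed.union
  · exact (Set.finite_Iio N).isClosed_biUnion (fun n _ => hA n)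
  · exact Metric.isClosed_cthickening

/-- A countable union of closed subsets of the line with empty interior has empty interior. -/
lemma interior_iUnion_empty {A : ℕ → Set ℝ} (hA : ∀ n, IsClosed (A n))
    (hi : ∀ n, interior (A n) = ∅) : interior (⋃ n, A n) = ∅ := by
  rw [interior_eq_empty_iff_dense_compl, Set.compl_iUnion]
  exact dense_iInter_of_isOpen (fun n => (hA n).isOpen_compl)
    (fun n => interior_eq_empty_iff_dense_compl.mp (hi n))

lemma totallyDisconnected_of_interior_empty {S : Set ℝ} (hS : interior S = ∅) :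
    IsTotallyDisconnected S := by
  intro t ht hpre x hx y hy
  by_contra hne
  wlog hlt : x < y generalizing x y
  · exact this hy hx (Ne.symm hne) (lt_of_le_of_ne (not_lt.mp hlt) (Ne.symm hne))
  have h1 : Set.Icc x y ⊆ S := (hpre.Icc_subset hx hy).trans ht
  have h2 : Set.Ioo x y ⊆ interior S := by
    apply interior_maximal (Set.Ioo_subset_Icc_self.trans h1) isOpen_Ioo
  rw [hS] at h2
  obtain ⟨z, hz⟩ := Set.nonempty_Ioo.mpr hlt
  exact h2 hz

lemma interior_empty_of_totallyDisconnected {S : Set ℝ} (hS : IsTotallyDisconnected S) :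
    interior S = ∅ := by
  rw [Set.eq_empty_iff_forall_notMem]
  intro x hx
  obtain ⟨ε, hε, hball⟩ := Metric.isOpen_iff.mp isOpen_interior x hx
  have h1 : Metric.ball x ε ⊆ S := hball.trans interior_subset
  have h2 : IsPreconnected (Metric.ball x ε) := (convex_ball x ε).isPreconnected
  have h3 := hS _ h1 h2 (Metric.mem_ball_self hε)
    (show x + ε / 2 ∈ Metric.ball x ε by
      rw [Metric.mem_ball, Real.dist_eq]
      rw [abs_of_pos (by linarith)]
      linarith)
  linarith

/-- A nonempty compact set with empty interior is contained in a Cantor set. -/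
lemma exists_cantor_superset {K : Set ℝ} (hK : IsCantorSet K) {C : Set ℝ} (hC : IsCompact C)
    (hne : C.Nonempty) (hi : interior C = ∅) : ∃ K' : Set ℝ, IsCantorSet K' ∧ C ⊆ K' := by
  obtain ⟨⟨k₀, hk₀⟩, hKc, hKd, hKp⟩ := hK
  obtain ⟨r, hr, hKr⟩ : ∃ r : ℝ, 0 ≤ r ∧ ∀ x ∈ K, |x - k₀| ≤ r := by
    obtain ⟨R, hR⟩ := hKc.isBounded.subset_closedBall k₀
    refine ⟨max R 0, le_max_right _ _, fun x hx => ?_⟩
    have := hR hx
    rw [Metric.mem_closedBall, Real.dist_eq] at this
    exact this.trans (le_max_left _ _)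
  have : Nonempty C := hne.to_subtype
  obtain ⟨u, hu⟩ := TopologicalSpace.exists_dense_seq C
  -- the affine maps
  let g : ℕ → ℝ → ℝ := fun n x => (u n : ℝ) + (x - k₀) / ((n : ℝ) + 1)
  let A : ℕ → Set ℝ := fun n => g n '' K
  have hgc : ∀ n, Continuous (g n) := fun n => by simp only [g]; fun_prop
  have hn1 : ∀ n : ℕ, (0 : ℝ) < (n : ℝ) + 1 := fun n => by positivity
  have hginv : ∀ n x, (g n x - u n) * ((n : ℝ) + 1) + k₀ = x := by
    intro n x
    simp only [g]
    have := hn1 n
    field_simp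
    ring
  have hginj : ∀ n, Function.Injective (g n) := fun n x y hxy => by
    rw [← hginv n x, ← hginv n y, hxy]
  have hAc : ∀ n, IsCompact (A n) := fun n => hKc.image (hgc n)
  have hAcl : ∀ n, IsClosed (A n) := fun n => (hAc n).isClosed
  have hAacc : ∀ n, ∀ x ∈ A n, AccPt x (𝓟 (A n)) := by
    rintro n _ ⟨x, hx, rfl⟩
    rw [accPt_iff_nhds]
    intro U hU
    have h1 : (g n) ⁻¹' U ∈ 𝓝 x := (hgc n).continuousAt.preimage_mem_nhds hU
    obtain ⟨y, ⟨hyU, hyK⟩, hyx⟩ := accPt_iff_nhds.mp (hKp x hx) _ h1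
    exact ⟨g n y, ⟨hyU, y, hyK, rfl⟩, fun h => hyx (hginj n h)⟩
  have hAi : ∀ n, interior (A n) = ∅ := by
    intro n
    apply interior_empty_of_totallyDisconnected
    intro t ht hpre x hx y hy
    -- pull back by the inverse affine map
    have h1 : (fun z : ℝ => (z - u n) * ((n : ℝ) + 1) + k₀) '' t ⊆ K := by
      rintro _ ⟨z, hz, rfl⟩
      obtain ⟨w, hw, rfl⟩ := ht hz
      dsimp only
      rw [hginv]
      exact hw
    have h2 : IsPreconnected ((fun z : ℝ => (z - u n) * ((n : ℝ) + 1) + k₀) '' t) :=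
      hpre.image _ (by fun_prop)
    have h3 := hKd _ h1 h2 ⟨x, hx, rfl⟩ ⟨y, hy, rfl⟩
    simp only at h3
    have := hn1 n
    have h4 : (x - u n) * ((n : ℝ) + 1) = (y - u n) * ((n : ℝ) + 1) := by linarith
    have h5 := mul_right_cancel₀ this.ne' h4
    linarith
  have hsub : ∀ n, A n ⊆ Metric.cthickening (r / (n + 1)) C := by
    rintro n _ ⟨x, hx, rfl⟩
    apply Metric.mem_cthickening_of_dist_le _ (u n : ℝ) _ _ (u n).2
    rw [Real.dist_eq]
    simp only [g]
    rw [add_sub_cancel_left, abs_div, abs_of_pos (hn1 n)]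
    exact div_le_div_of_nonneg_right (hKr x hx) (hn1 n).le
  have hclosed : IsClosed (C ∪ ⋃ n, A n) := isClosed_union_shrinking hC.isClosed hAcl hr hsub
  have hbdd : Bornology.IsBounded (C ∪ ⋃ n, A n) := by
    have h1 : C ∪ ⋃ n, A n ⊆ Metric.cthickening r C := by
      apply Set.union_subset (Metric.self_subset_cthickening C)
      apply Set.iUnion_subset
      intro n
      refine (hsub n).trans (Metric.cthickening_mono ?_ C)
      rw [div_le_iff₀ (hn1 n)]
      have : (0 : ℝ) ≤ n := Nat.cast_nonneg n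
      nlinarith
    exact hC.isBounded.cthickening.subset h1
  have hcompact : IsCompact (C ∪ ⋃ n, A n) := Metric.isCompact_of_isClosed_isBounded hclosed hbdd
  refine ⟨C ∪ ⋃ n, A n, ⟨hne.mono Set.subset_union_left, hcompact, ?_, ?_⟩, Set.subset_union_left⟩
  · apply totallyDisconnected_of_interior_empty
    let B : ℕ → Set ℝ := fun n => Nat.casesOn n C A
    have hB : C ∪ ⋃ n, A n = ⋃ n, B n := by
      ext x
      simp only [Set.mem_union, Set.mem_iUnion]
      constructor
      · rintro (h | ⟨n, h⟩)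
        · exact ⟨0, h⟩
        · exact ⟨n + 1, h⟩
      · rintro ⟨n, h⟩
        cases n with
        | zero => exact Or.inl h
        | succ n => exact Or.inr ⟨n, h⟩
    rw [hB]
    apply interior_iUnion_empty
    · intro n
      cases n with
      | zero => exact hC.isClosed
      | succ n => exact hAcl n
    · intro n
      cases n with
      | zero => exact hi
      | succ n => exact hAi n
  · have hA' : ∀ n, ∀ x ∈ A n, AccPt x (𝓟 (C ∪ ⋃ n, A n)) := fun n x hx =>
      (hAacc n x hx).mono (by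
        rw [Filter.principal_mono]
        exact (Set.subset_iUnion A n).trans Set.subset_union_right)
    have huA : ∀ n, (u n : ℝ) ∈ A n := fun n => ⟨k₀, hk₀, by simp [g]⟩
    rintro x (hx | hx)
    · by_cases hxu : ∃ n, (u n : ℝ) = x
      · obtain ⟨n, rfl⟩ := hxu
        exact hA' n _ (huA n)
      · rw [accPt_iff_nhds]
        intro U hU
        have h1 : (Subtype.val : C → ℝ) ⁻¹' U ∈ 𝓝 (⟨x, hx⟩ : C) :=
          continuous_subtype_val.continuousAt.preimage_mem_nhds hU
        obtain ⟨y, hyU, n, rfl⟩ := mem_closure_iff_nhds.mp (hu ⟨x, hx⟩) _ h1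
        exact ⟨u n, ⟨hyU, Or.inl (u n).2⟩, fun h => hxu ⟨n, h⟩⟩
    · obtain ⟨n, hn⟩ := Set.mem_iUnion.mp hx
      exact hA' n x hn

/-! ### Separated pieces of a perfect set -/

lemma pieces {K : Set ℝ} (hK : Perfect K) {x₀ : ℝ} (hx₀ : x₀ ∈ K) {δ : ℝ} (hδ : 0 < δ) (n : ℕ) :
    ∃ f : Fin n → (ℕ → Bool) → ℝ, (∀ j, Continuous (f j)) ∧ (∀ j, Function.Injective (f j)) ∧
      (∀ j s, f j s ∈ K) ∧ (∀ j s, |f j s - x₀| ≤ δ) ∧
      (∀ j s s', 0 < (f j s - x₀) * (f j s' - x₀)) ∧
      (∀ i j, i ≠ j → ∀ s s' s'', 0 < (f j s - f i s'') * (f j s' - f i s'')) := by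
  classical
  -- infinitely many points of `K` near `x₀`
  have hinf : ((K ∩ Metric.ball x₀ (δ / 2)) \ {x₀}).Infinite := by
    have h1 := hK.acc x₀ hx₀
    rw [accPt_iff_frequently] at h1
    intro hfin
    have h2 : ((K ∩ Metric.ball x₀ (δ / 2)) \ {x₀})ᶜ ∈ 𝓝 x₀ := by
      apply hfin.isClosed.isOpen_compl.mem_nhds
      simp
    have h3 : Metric.ball x₀ (δ / 2) ∈ 𝓝 x₀ := Metric.ball_mem_nhds _ (by linarith)
    obtain ⟨y, ⟨hy1, hy2⟩, hy3, hy4⟩ := (h1.and_eventually (inter_mem h2 h3)).exists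
    exact hy3 ⟨⟨hy2, hy4⟩, hy1⟩
  let k : ℕ → ℝ := fun m => (Set.Infinite.natEmbedding _ hinf m : ℝ)
  have hk : ∀ m, k m ∈ (K ∩ Metric.ball x₀ (δ / 2)) \ {x₀} := fun m =>
    (Set.Infinite.natEmbedding _ hinf m).2
  have hkinj : Function.Injective k := fun a b h =>
    (Set.Infinite.natEmbedding _ hinf).injective (Subtype.ext h)
  -- a radius
  obtain ⟨r, hr, hrδ, hr1, hr2⟩ : ∃ r : ℝ, 0 < r ∧ r ≤ δ / 2 ∧ (∀ j : Fin n, 2 * r < |k j - x₀|) ∧
      (∀ i j : Fin n, i ≠ j → 2 * r < |k j - k i|) := by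
    have h1 : ∀ j : Fin n, 0 < |k j - x₀| := fun j => abs_pos.mpr (sub_ne_zero.mpr (hk j).2)
    have h2 : ∀ i j : Fin n, i ≠ j → 0 < |k j - k i| := fun i j hij => by
      apply abs_pos.mpr
      apply sub_ne_zero.mpr
      intro h
      exact hij (Fin.ext (hkinj h)).symm
    let F : Finset ℝ := insert (δ / 2) ((Finset.univ.image fun j : Fin n => |k j - x₀|) ∪
      ((Finset.univ.filter fun p : Fin n × Fin n => p.1 ≠ p.2).image fun p => |k p.2 - k p.1|))
    have hF : F.Nonempty := Finset.insert_nonempty _ _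
    have hFpos : ∀ x ∈ F, 0 < x := by
      intro x hx
      simp only [F, Finset.mem_insert, Finset.mem_union, Finset.mem_image, Finset.mem_univ,
        true_and, Finset.mem_filter] at hx
      rcases hx with rfl | ⟨j, rfl⟩ | ⟨p, hp, rfl⟩
      · linarith
      · exact h1 j
      · exact h2 _ _ hp
    have hmin : 0 < F.min' hF := hFpos _ (F.min'_mem hF)
    refine ⟨F.min' hF / 3, by linarith, ?_, ?_, ?_⟩
    · have := F.min'_le (δ / 2) (by simp [F])
      linarith
    · intro j
      have := F.min'_le |k j - x₀| (by simp [F])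
      linarith
    · intro i j hij
      have := F.min'_le |k j - k i| (by
        simp only [F, Finset.mem_insert, Finset.mem_union, Finset.mem_image, Finset.mem_univ,
          true_and, Finset.mem_filter]
        exact Or.inr (Or.inr ⟨(i, j), hij, rfl⟩))
      linarith
  have hex : ∀ j : Fin n, ∃ f : (ℕ → Bool) → ℝ, Continuous f ∧ Function.Injective f ∧
      ∀ s, f s ∈ K ∧ |f s - k j| ≤ r := by
    intro j
    obtain ⟨hperf, hne⟩ := hK.closure_nhds_inter (k j) (hk j).1.1
      (Metric.mem_ball_self hr) Metric.isOpen_ball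
    obtain ⟨f, hf1, hf2, hf3⟩ := hperf.exists_nat_bool_injection hne
    refine ⟨f, hf2, hf3, fun s => ?_⟩
    have h1 : f s ∈ closure (Metric.ball (k j) r ∩ K) := hf1 ⟨s, rfl⟩
    constructor
    · have : closure (Metric.ball (k j) r ∩ K) ⊆ K :=
        closure_minimal Set.inter_subset_right hK.closed
      exact this h1
    · have : closure (Metric.ball (k j) r ∩ K) ⊆ Metric.closedBall (k j) r :=
        closure_minimal (Set.inter_subset_left.trans Metric.ball_subset_closedBall)
          Metric.isClosed_closedBall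
      have h2 := this h1
      rwa [Metric.mem_closedBall, Real.dist_eq] at h2
  choose f hf1 hf2 hf3 using hex
  have hsign : ∀ (a c x y : ℝ), 2 * r < |c - a| → |x - c| ≤ r → |y - c| ≤ r → ∀ a', |a' - a| ≤ r →
      0 < (x - a') * (y - a') := by
    intro a c x y h1 h2 h3 a' h4
    rw [abs_le] at h2 h3 h4
    rcases lt_abs.mp h1 with h | h
    · apply mul_pos <;> linarith
    · apply mul_pos_of_neg_of_neg <;> linarith
  refine ⟨f, hf1, hf2, fun j s => (hf3 j s).1, ?_, ?_, ?_⟩
  · intro j s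
    have h1 := (hf3 j s).2
    have h2 := (hk j).1.2
    rw [Metric.mem_ball, Real.dist_eq] at h2
    calc |f j s - x₀| ≤ |f j s - k j| + |k j - x₀| := abs_sub_le _ _ _
      _ ≤ δ := by linarith
  · intro j s s'
    exact hsign x₀ (k j) _ _ (hr1 j) (hf3 j s).2 (hf3 j s').2 x₀ (by simp [hr.le])
  · intro i j hij s s' s''
    exact hsign (k i) (k j) _ _ (hr2 i j hij) (hf3 j s).2 (hf3 j s').2 _ (hf3 i s'').2

/-! ### One block, for all trees with `n` vertices -/

/-- The tree distance set pinned at `p` at the root `r`. -/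
def pinnedTreeDistanceSet {V : Type} (T : SimpleGraph V) (r : V) (p : ℝ × ℝ) (X : Set (ℝ × ℝ)) :
    Set (T.edgeSet → ℝ) :=
  {t | ∃ y : V → ℝ × ℝ, Function.Injective y ∧ (∀ v, y v ∈ X) ∧ y r = p ∧
    ∀ (a b : V) (h : T.Adj a b), t ⟨s(a, b), h⟩ = euclid (y a) (y b)}

lemma euclid_comm (p q : ℝ × ℝ) : euclid p q = euclid q p := by
  unfold euclid
  congr 1
  ring

lemma sqrt_inj_aux {t x a b : ℝ} (ha : |a - x| ≤ t) (hb : |b - x| ≤ t)
    (hs : 0 < (a - x) * (b - x)) (h : √(t ^ 2 - (a - x) ^ 2) = √(t ^ 2 - (b - x) ^ 2)) : a = b := by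
  have h1 : 0 ≤ t ^ 2 - (a - x) ^ 2 := by
    have := sq_le_sq' (neg_le_of_abs_le ha) (le_of_abs_le ha)
    linarith
  have h2 : 0 ≤ t ^ 2 - (b - x) ^ 2 := by
    have := sq_le_sq' (neg_le_of_abs_le hb) (le_of_abs_le hb)
    linarith
  rw [Real.sqrt_inj h1 h2] at h
  have h3 : (a - x) ^ 2 = (b - x) ^ 2 := by linarith
  rcases sq_eq_sq_iff_eq_or_eq_neg.mp h3 with h4 | h4
  · linarith
  · rw [h4] at hs
    nlinarith [sq_nonneg (b - x)]

lemma block {K : Set ℝ} (hK : Perfect K) {x₀ : ℝ} (hx₀ : x₀ ∈ K) (n : ℕ) {δ : ℝ} (hδ : 0 < δ) :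
    ∃ Z : Set ℝ, IsCompact Z ∧ interior Z = ∅ ∧ Z ⊆ Set.Icc 0 δ ∧ (0 : ℝ) ∈ Z ∧
      ∀ (V : Type) [Fintype V], Fintype.card V = n → ∀ T : SimpleGraph V, T.IsTree → ∀ r : V,
        (interior (pinnedTreeDistanceSet T r (x₀, 0) (K ×ˢ Z))).Nonempty := by
  classical
  obtain ⟨c, hc, hcδ⟩ : ∃ c : ℝ, 0 < c ∧ 4 * c * n ≤ δ := by
    refine ⟨δ / (4 * (n + 1)), by positivity, ?_⟩
    rw [show 4 * (δ / (4 * ((n : ℝ) + 1))) * n = δ * (n / (n + 1)) by field_simp]
    have : (n : ℝ) / (n + 1) ≤ 1 := by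
      rw [div_le_one (by positivity)]
      linarith
    nlinarith
  obtain ⟨f, hfc, hfi, hfK, hfx, hfs, hff⟩ := pieces hK hx₀ hc n
  -- parameters for the vertex `j`
  let G : Fin n → Set ℝ := fun j => {x₀} ∪ ⋃ i ∈ {i : Fin n | i ≠ j}, Set.range (f i)
  let P : Fin n → Set (ℝ × ℝ × ℝ) := fun j => G j ×ˢ (Set.Icc 0 δ ×ˢ Set.Icc (2 * c) (4 * c))
  have hG : ∀ j, IsCompact (G j) := by
    intro j
    apply isCompact_singleton.union
    apply (Set.toFinite _).isCompact_biUnion
    intro i _
    exact isCompact_range (hfc i)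
  have hP : ∀ j, IsCompact (P j) := fun j => (hG j).prod (isCompact_Icc.prod isCompact_Icc)
  have hGx : ∀ j, ∀ x ∈ G j, |x - x₀| ≤ c ∧ ∀ s s', 0 < (f j s - x) * (f j s' - x) := by
    rintro j x (hx | hx)
    · rw [Set.mem_singleton_iff] at hx
      subst hx
      refine ⟨by simp [hc.le], fun s s' => hfs j s s'⟩
    · rw [Set.mem_iUnion₂] at hx
      obtain ⟨i, hij, s'', rfl⟩ := hx
      exact ⟨hfx i s'', fun s s' => hff i j hij s s' s''⟩
  have hdist : ∀ j, ∀ x ∈ G j, ∀ s, |f j s - x| ≤ 2 * c := by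
    intro j x hx s
    have h1 := (hGx j x hx).1
    have h2 := hfx j s
    rw [abs_sub_comm] at h1
    have := abs_sub_le (f j s) x₀ x
    linarith
  let Ψ : Fin n → (ℝ × ℝ × ℝ) × (ℕ → Bool) → ℝ := fun j u =>
    u.1.2.1 + √(u.1.2.2 ^ 2 - (f j u.2 - u.1.1) ^ 2)
  have hav : ∀ j : Fin n, ∃ ε : ℕ → ℝ, (∀ k, 0 < ε k) ∧ ∀ p ∈ P j, ∃ s, ∀ k,
      ε k ≤ |Ψ j (p, s) - TopologicalSpace.denseSeq ℝ k| := by
    intro j
    apply avoid (hP j)
    · have := hfc j
      simp only [Ψ]
      fun_prop
    · rintro ⟨x, z, t⟩ ⟨hx, hz, ht⟩ s s' hss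
      simp only [Ψ] at hss hx ht
      have h1 : √(t ^ 2 - (f j s - x) ^ 2) = √(t ^ 2 - (f j s' - x) ^ 2) := by linarith
      apply hfi j
      exact sqrt_inj_aux ((hdist j x hx s).trans ht.1) ((hdist j x hx s').trans ht.1)
        ((hGx j x hx).2 s s') h1
  choose e he0 he using hav
  obtain ⟨ε, hε0, hεe⟩ : ∃ ε : ℕ → ℝ, (∀ k, 0 < ε k) ∧ ∀ j k, ε k ≤ e j k := by
    have hne : ∀ k, (insert 1 (Finset.univ.image fun j => e j k)).Nonempty :=
      fun k => Finset.insert_nonempty _ _
    refine ⟨fun k => (insert 1 (Finset.univ.image fun j => e j k)).min' (hne k), ?_, ?_⟩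
    · intro k
      have := Finset.min'_mem _ (hne k)
      rw [Finset.mem_insert, Finset.mem_image] at this
      rcases this with h | ⟨j, _, h⟩
      · dsimp only; rw [h]; norm_num
      · dsimp only; rw [← h]; exact he0 j k
    · intro j k
      apply Finset.min'_le
      simp
  let U : Set ℝ := ⋃ k, Metric.ball (TopologicalSpace.denseSeq ℝ k) (ε k)
  have hUo : IsOpen U := isOpen_iUnion fun k => Metric.isOpen_ball
  have hUd : Dense U := by
    apply (TopologicalSpace.denseRange_denseSeq ℝ).mono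
    rintro _ ⟨k, rfl⟩
    exact Set.mem_iUnion.mpr ⟨k, Metric.mem_ball_self (hε0 k)⟩
  let Z : Set ℝ := {0} ∪ (Set.Icc 0 δ ∩ Uᶜ)
  refine ⟨Z, ?_, ?_, ?_, Or.inl rfl, ?_⟩
  · exact isCompact_singleton.union (isCompact_Icc.inter_right hUo.isClosed_compl)
  · rw [interior_eq_empty_iff_dense_compl]
    have h1 : Dense (U ∩ {(0 : ℝ)}ᶜ) :=
      hUd.inter_of_isOpen_left (dense_compl_singleton 0) hUo
    apply h1.mono
    rintro x ⟨hx1, hx2⟩ hx3
    rcases hx3 with h | h
    · exact hx2 h
    · exact h.2 hx1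
  · rintro x (hx | hx)
    · rw [Set.mem_singleton_iff] at hx
      subst hx
      exact ⟨le_rfl, hδ.le⟩
    · exact hx.1
  · intro V _ hcard T hT r
    let ev : V ≃ Fin n := Fintype.equivFinOfCardEq hcard
    have hlt : ∀ v, T.dist r v < n := fun v => by
      rw [← hcard]; exact dist_lt_card hT r v
    -- the open box of distances
    let Bx : Set (T.edgeSet → ℝ) := Set.univ.pi fun _ => Set.Ioo (2 * c) (4 * c)
    have hBo : IsOpen Bx := isOpen_set_pi (Set.toFinite _) fun _ _ => isOpen_Ioo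
    have hBne : Bx.Nonempty := ⟨fun _ => 3 * c, fun _ _ => ⟨by linarith, by linarith⟩⟩
    refine hBne.mono (interior_maximal ?_ hBo)
    intro t ht
    have ht' : ∀ e, 2 * c < t e ∧ t e < 4 * c := fun e => ht e (Set.mem_univ e)
    have hdr : T.dist r r = 0 := SimpleGraph.dist_self
    obtain ⟨y, hyS, hyR⟩ := exists_assignment hT r (Y := ℝ × ℝ)
      (fun v => {p | (v = r → p = (x₀, 0)) ∧ (v ≠ r → ∃ s, p.1 = f (ev v) s) ∧ p.2 ∈ Z ∧
        0 ≤ p.2 ∧ p.2 ≤ 4 * c * T.dist r v})
      (fun u v p p' => ∀ h : T.Adj u v, t ⟨s(u, v), h⟩ = euclid p p')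
      (by
        intro v
        by_cases hv : v = r
        · refine ⟨(x₀, 0), fun _ => rfl, fun h => absurd hv h, Or.inl rfl, le_rfl, ?_⟩
          simp only
          positivity
        · refine ⟨(f (ev v) (fun _ => false), 0), fun h => absurd h hv, fun _ => ⟨_, rfl⟩,
            Or.inl rfl, le_rfl, ?_⟩
          simp only
          positivity)
      (by
        rintro u v huv hd ⟨x, z⟩ ⟨hu1, hu2, hu3, hu4, hu5⟩
        simp only at hu2 hu3 hu4 hu5
        have hvr : v ≠ r := by
          rintro rfl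
          omega
        have huv' : ev u ≠ ev v := fun h => huv.ne (ev.injective h)
        have hxG : x ∈ G (ev v) := by
          by_cases hur : u = r
          · left
            have := hu1 hur
            simp only [Prod.mk.injEq] at this
            exact this.1
          · right
            obtain ⟨s, hs⟩ := hu2 hur
            rw [Set.mem_iUnion₂]
            exact ⟨ev u, huv', s, hs.symm⟩
        set t₀ := t ⟨s(u, v), huv⟩ with ht₀
        have ht₀' := ht' ⟨s(u, v), huv⟩
        rw [← ht₀] at ht₀'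
        have hzδ : ∀ w : V, 4 * c * (T.dist r w : ℝ) ≤ δ := by
          intro w
          have h1 : (T.dist r w : ℝ) ≤ n := by exact_mod_cast (hlt w).le
          calc 4 * c * (T.dist r w : ℝ) ≤ 4 * c * n := by gcongr
            _ ≤ δ := hcδ
        have hmem : (x, z, t₀) ∈ P (ev v) :=
          ⟨hxG, ⟨hu4, hu5.trans (hzδ u)⟩, ⟨ht₀'.1.le, ht₀'.2.le⟩⟩
        obtain ⟨s, hs⟩ := he (ev v) (x, z, t₀) hmem
        simp only [Ψ] at hs
        have hsq : 0 ≤ t₀ ^ 2 - (f (ev v) s - x) ^ 2 := by
          have h1 := hdist (ev v) x hxG s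
          have h2 := sq_le_sq' (neg_le_of_abs_le (h1.trans ht₀'.1.le))
            (le_of_abs_le (h1.trans ht₀'.1.le))
          linarith
        have ht₀pos : 0 < t₀ := by linarith [ht₀'.1]
        have hsle : √(t₀ ^ 2 - (f (ev v) s - x) ^ 2) ≤ t₀ := by
          rw [Real.sqrt_le_left ht₀pos.le]
          linarith [sq_nonneg (f (ev v) s - x)]
        have hz' : z + √(t₀ ^ 2 - (f (ev v) s - x) ^ 2) ≤ 4 * c * T.dist r v := by
          rw [hd]
          push_cast
          linarith [ht₀'.2]
        have hz0 : 0 ≤ z + √(t₀ ^ 2 - (f (ev v) s - x) ^ 2) := by positivity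
        refine ⟨(f (ev v) s, z + √(t₀ ^ 2 - (f (ev v) s - x) ^ 2)),
          ⟨fun h => absurd h hvr, fun _ => ⟨s, rfl⟩, Or.inr ⟨⟨hz0, hz'.trans (hzδ v)⟩, ?_⟩, hz0,
            hz'⟩, ?_⟩
        · rw [Set.mem_compl_iff, Set.mem_iUnion]
          rintro ⟨k, hk⟩
          rw [Metric.mem_ball, Real.dist_eq] at hk
          have h1 := hs k
          have h2 := hεe (ev v) k
          simp only at hk
          linarith
        · intro _
          unfold euclid
          simp only
          have h1 : (x - f (ev v) s) ^ 2 + (z - (z + √(t₀ ^ 2 - (f (ev v) s - x) ^ 2))) ^ 2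
              = t₀ ^ 2 := by
            have h2 := Real.sq_sqrt hsq
            calc (x - f (ev v) s) ^ 2 + (z - (z + √(t₀ ^ 2 - (f (ev v) s - x) ^ 2))) ^ 2
                = (f (ev v) s - x) ^ 2 + √(t₀ ^ 2 - (f (ev v) s - x) ^ 2) ^ 2 := by ring
              _ = t₀ ^ 2 := by rw [h2]; ring
          rw [h1, Real.sqrt_sq ht₀pos.le])
    have hyr : y r = (x₀, 0) := (hyS r).1 rfl
    refine ⟨y, ?_, ?_, hyr, ?_⟩
    · -- injectivity
      have h1 : ∀ v w : V, v ≠ w → y v = y w → v = r → False := by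
        intro v w hvw h hv
        subst hv
        have hw : w ≠ v := fun h => hvw h.symm
        obtain ⟨s, hs⟩ := (hyS w).2.1 hw
        have h2 := hfs (ev w) s s
        rw [← hs, ← h, hyr, sub_self, zero_mul] at h2
        exact lt_irrefl _ h2
      intro v w h
      by_contra hvw
      by_cases hv : v = r
      · exact h1 v w hvw h hv
      · by_cases hw : w = r
        · exact h1 w v (Ne.symm hvw) h.symm hw
        · obtain ⟨s, hs⟩ := (hyS v).2.1 hv
          obtain ⟨s', hs'⟩ := (hyS w).2.1 hw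
          have h2 := hff (ev v) (ev w) (fun h => hvw (ev.injective h)) s' s' s
          rw [← hs, ← hs', h, sub_self, zero_mul] at h2
          exact lt_irrefl _ h2
    · intro v
      refine ⟨?_, (hyS v).2.2.1⟩
      by_cases hv : v = r
      · rw [hv, hyr]; exact hx₀
      · obtain ⟨s, hs⟩ := (hyS v).2.1 hv
        rw [hs]
        exact hfK _ _
    · intro a b h
      rcases hT.dist_eq_dist_add_one_of_adj r h with h1 | h1
      · have h2 := hyR b a h.symm h1 h.symm
        rw [euclid_comm, ← h2]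
        congr 1
        exact Subtype.ext Sym2.eq_swap
      · exact hyR a b h h1 h

/-- The pinned form: one pin `(x₀, 0)` for all trees and all roots. -/
theorem pinned_version (K : Set ℝ) (hK : IsCantorSet K) (x₀ : ℝ) (hx₀ : x₀ ∈ K) :
    ∃ K' : Set ℝ, IsCantorSet K' ∧ (0 : ℝ) ∈ K' ∧
      ∀ (V : Type) [Finite V] (T : SimpleGraph V), T.IsTree → ∀ r : V,
        (interior (pinnedTreeDistanceSet T r (x₀, 0) (K ×ˢ K'))).Nonempty := by
  have hperf : Perfect K := ⟨hK.2.1.isClosed, hK.2.2.2⟩
  have hblock := fun n : ℕ => block hperf hx₀ n (δ := 1 / ((n : ℝ) + 1)) (by positivity)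
  choose Z hZc hZi hZs hZ0 hZT using hblock
  let C : Set ℝ := {0} ∪ ⋃ n, Z n
  have hCcl : IsClosed C := by
    apply isClosed_union_shrinking isClosed_singleton (fun n => (hZc n).isClosed) zero_le_one
    intro n x hx
    apply Metric.mem_cthickening_of_dist_le _ (0 : ℝ) _ _ (Set.mem_singleton _)
    rw [Real.dist_eq, sub_zero, abs_of_nonneg (hZs n hx).1]
    exact (hZs n hx).2
  have hCb : C ⊆ Set.Icc 0 1 := by
    apply Set.union_subset
    · rintro x hx
      rw [Set.mem_singleton_iff] at hx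
      subst hx
      simp
    · apply Set.iUnion_subset
      intro n x hx
      refine ⟨(hZs n hx).1, (hZs n hx).2.trans ?_⟩
      rw [div_le_one (by positivity)]
      linarith [(Nat.cast_nonneg n : (0 : ℝ) ≤ n)]
  have hCc : IsCompact C := isCompact_Icc.of_isClosed_subset hCcl hCb
  have hCi : interior C = ∅ := by
    have hB : C = ⋃ n, Z n := by
      apply Set.Subset.antisymm
      · apply Set.union_subset _ subset_rfl
        rintro x hx
        rw [Set.mem_singleton_iff] at hx
        subst hx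
        exact Set.mem_iUnion.mpr ⟨0, hZ0 0⟩
      · exact Set.subset_union_right
    rw [hB]
    exact interior_iUnion_empty (fun n => (hZc n).isClosed) hZi
  obtain ⟨K', hK', hCK'⟩ := exists_cantor_superset hK hCc ⟨0, Or.inl rfl⟩ hCi
  refine ⟨K', hK', hCK' (Or.inl rfl), ?_⟩
  intro V _ T hT r
  have : Fintype V := Fintype.ofFinite V
  refine (hZT (Fintype.card V) V rfl T hT r).mono (interior_mono ?_)
  rintro t ⟨y, hy1, hy2, hy3, hy4⟩
  refine ⟨y, hy1, fun v => ⟨(hy2 v).1, hCK' (Or.inr ?_)⟩, hy3, hy4⟩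
  exact Set.mem_iUnion.mpr ⟨_, (hy2 v).2⟩

/-- **A single Cantor partner for all trees.**  Every Cantor set `K` has a Cantor set `K'` such that
the tree distance set `Δ^T(K × K')` has nonempty interior for every finite tree `T`. -/
theorem result (K : Set ℝ) (hK : IsCantorSet K) :
    ∃ K' : Set ℝ, IsCantorSet K' ∧ ∀ (V : Type) [Finite V] (T : SimpleGraph V), T.IsTree →
      (interior (treeDistanceSet T (K ×ˢ K'))).Nonempty := by
  obtain ⟨x₀, hx₀⟩ := hK.1
  obtain ⟨K', hK', _, h⟩ := pinned_version K hK x₀ hx₀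
  refine ⟨K', hK', fun V _ T hT => ?_⟩
  obtain ⟨r⟩ := hT.connected.nonempty
  refine (h V T hT r).mono (interior_mono ?_)
  rintro t ⟨y, hy1, hy2, _, hy4⟩
  exact ⟨y, hy1, hy2, hy4⟩

end Pool.Agent.Results.MP_d100af_an.SinglePartner
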